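import Pool.Agent.Lib.H49SV.F

set_option autoImplicit false

namespace Pool.Agent.Lib.H49SV

open Module MeasureTheory

variable {d : ℕ}

/-- A configuration which spans the space contains a nondegenerate simplex. -/
theorem exists_simplex (n : ℕ) (X : Fin n → (Fin d → ℝ))
    (hspan : affineSpan ℝ (Set.range X) = ⊤) :
    ∃ u : Fin (d + 1) → Fin n, (diffs (X ∘ u)).det ≠ 0 := by
  classical
  have h1 := span_hat _ hspan
  obtain ⟨κ, f, hf, h2, h3⟩ := exists_linearIndependent' ℝ (fun i => hat (X i))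
  rw [Set.range_comp' hat X, h1] at h2
  haveI : Finite κ := Finite.of_injective f hf
  haveI : Fintype κ := Fintype.ofFinite κ
  have h4 : Fintype.card κ = d + 1 := by
    have h5 : finrank ℝ (Submodule.span ℝ (Set.range ((fun i => hat (X i)) ∘ f))) =
        Fintype.card κ := finrank_span_eq_card h3
    rw [h2, finrank_top, finrank_prod, finrank_self] at h5
    simpa using h5.symm
  obtain ⟨e⟩ : Nonempty (Fin (d + 1) ≃ κ) := ⟨(Fintype.equivFinOfCardEq h4).symm⟩
  refine ⟨f ∘ e, det_ne ?_⟩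
  exact h3.comp e e.injective

theorem card_ge (n : ℕ) (X : Fin n → (Fin d → ℝ))
    (hspan : affineSpan ℝ (Set.range X) = ⊤) : d + 1 ≤ n := by
  classical
  have h1 := span_hat _ hspan
  rw [← Set.range_comp' hat X] at h1
  have h2 := finrank_range_le_card (R := ℝ) (fun i => hat (X i))
  unfold Set.finrank at h2
  rw [h1, finrank_top, finrank_prod, finrank_self] at h2
  simpa using h2

/-- Largest and least nonzero determinant. -/
theorem extremes (n : ℕ) (X : Fin n → (Fin d → ℝ))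
    (hspan : affineSpan ℝ (Set.range X) = ⊤) :
    ∃ v w : Fin (d + 1) → Fin n, (∀ u, |(diffs (X ∘ u)).det| ≤ |(diffs (X ∘ v)).det|) ∧
      (diffs (X ∘ v)).det ≠ 0 ∧ (diffs (X ∘ w)).det ≠ 0 ∧
      ∀ u : Fin (d + 1) → Fin n, (diffs (X ∘ u)).det ≠ 0 →
        |(diffs (X ∘ w)).det| ≤ |(diffs (X ∘ u)).det| := by
  classical
  obtain ⟨u0, hu0⟩ := exists_simplex n X hspan
  obtain ⟨v, -, hv⟩ := Finset.exists_max_image (Finset.univ : Finset (Fin (d + 1) → Fin n))
    (fun u => |(diffs (X ∘ u)).det|) ⟨u0, Finset.mem_univ _⟩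
  obtain ⟨w, hw, hw'⟩ := Finset.exists_min_image
    ((Finset.univ : Finset (Fin (d + 1) → Fin n)).filter fun u => (diffs (X ∘ u)).det ≠ 0)
    (fun u => |(diffs (X ∘ u)).det|) ⟨u0, by simpa using hu0⟩
  refine ⟨v, w, fun u => hv u (Finset.mem_univ _), ?_, by simpa using hw, fun u hu => hw' u (by
    simpa using hu)⟩
  have h1 := hv u0 (Finset.mem_univ _)
  exact abs_pos.1 (lt_of_lt_of_le (abs_pos.2 hu0) h1)

end Pool.Agent.Lib.H49SV
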