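import Mathlib

set_option autoImplicit false

namespace Pool.Agent.Lib.H49SV

open Module

/-- A point which violates a valid inequality violates one which is tight on `k` linearly
independent vectors. -/
theorem facet {V : Type} [AddCommGroup V] [Module ℝ V] [FiniteDimensional ℝ V]
    (S : Finset V) (hS : Submodule.span ℝ (S : Set V) = ⊤) (x : V)
    (g : V →ₗ[ℝ] ℝ) (hg : ∀ s ∈ S, g s ≤ 0) (hx : 0 < g x) (k : ℕ)
    (hk : k + 1 ≤ finrank ℝ V) :
    ∃ (g' : V →ₗ[ℝ] ℝ) (Y : Fin k → V), (∀ i, Y i ∈ S) ∧ (∀ i, g' (Y i) = 0) ∧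
      (∀ s ∈ S, g' s ≤ 0) ∧ 0 < g' x ∧ LinearIndependent ℝ Y := by
  induction k with
  | zero => exact ⟨g, Fin.elim0, fun i => i.elim0, fun i => i.elim0, hg, hx,
      linearIndependent_empty_type⟩
  | succ k ih =>
    obtain ⟨g, Y, h1, h2, h3, h4, h5⟩ := ih (by omega)
    -- a functional which vanishes at `x` and at `Y`
    have hlt : Submodule.span ℝ (Set.range (Fin.cons x Y : Fin (k + 1) → V)) < ⊤ := by
      rw [lt_top_iff_ne_top]
      intro h
      have h6 := finrank_range_le_card (R := ℝ) (Fin.cons x Y : Fin (k + 1) → V)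
      unfold Set.finrank at h6
      rw [h, finrank_top, Fintype.card_fin] at h6
      omega
    obtain ⟨ψ, hψ0, hψ⟩ := Submodule.exists_le_ker_of_lt_top _ hlt
    have hψx : ψ x = 0 := by
      have : x ∈ Submodule.span ℝ (Set.range (Fin.cons x Y : Fin (k + 1) → V)) :=
        Submodule.subset_span ⟨0, rfl⟩
      exact LinearMap.mem_ker.1 (hψ this)
    have hψY : ∀ i, ψ (Y i) = 0 := by
      intro i
      have : Y i ∈ Submodule.span ℝ (Set.range (Fin.cons x Y : Fin (k + 1) → V)) :=
        Submodule.subset_span ⟨i.succ, by simp⟩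
      exact LinearMap.mem_ker.1 (hψ this)
    obtain ⟨s, hs, hsψ⟩ : ∃ s ∈ S, ψ s ≠ 0 := by
      by_contra hcon
      simp only [not_exists, not_and, not_not] at hcon
      apply hψ0
      have : Submodule.span ℝ (S : Set V) ≤ LinearMap.ker ψ := by
        rw [Submodule.span_le]
        intro s hs
        exact hcon s hs
      rw [hS, top_le_iff] at this
      exact LinearMap.ker_eq_top.1 this
    -- the general step
    have key : ∀ ψ : V →ₗ[ℝ] ℝ, ψ x = 0 → (∀ i, ψ (Y i) = 0) → (∃ s ∈ S, 0 < ψ s) →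
        ∃ (g' : V →ₗ[ℝ] ℝ) (Y : Fin (k + 1) → V), (∀ i, Y i ∈ S) ∧ (∀ i, g' (Y i) = 0) ∧
          (∀ s ∈ S, g' s ≤ 0) ∧ 0 < g' x ∧ LinearIndependent ℝ Y := by
      intro ψ hx0 hY0 hpos
      obtain ⟨s0, hs0, hmin⟩ := Finset.exists_min_image (S.filter (fun s => 0 < ψ s))
        (fun s => - g s / ψ s) (by
          obtain ⟨s, hs, h⟩ := hpos
          exact ⟨s, Finset.mem_filter.2 ⟨hs, h⟩⟩)
      rw [Finset.mem_filter] at hs0
      set t := - g s0 / ψ s0 with ht
      have ht0 : 0 ≤ t := div_nonneg (by linarith [h3 s0 hs0.1]) hs0.2.le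
      refine ⟨g + t • ψ, Fin.cons s0 Y, ?_, ?_, ?_, ?_, ?_⟩
      · intro i
        refine Fin.cases ?_ (fun i => ?_) i
        · simpa using hs0.1
        · simpa using h1 i
      · intro i
        refine Fin.cases ?_ (fun i => ?_) i
        · simp only [Fin.cons_zero, LinearMap.add_apply, LinearMap.smul_apply, smul_eq_mul]
          rw [ht, div_mul_cancel₀ _ hs0.2.ne']
          ring
        · simp [h2 i, hY0 i]
      · intro s hs
        simp only [LinearMap.add_apply, LinearMap.smul_apply, smul_eq_mul]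
        by_cases h : 0 < ψ s
        · have h6 := hmin s (Finset.mem_filter.2 ⟨hs, h⟩)
          have h7 : t * ψ s ≤ - g s := by
            rw [← le_div_iff₀ h]
            exact h6
          linarith
        · have h6 : t * ψ s ≤ 0 := mul_nonpos_of_nonneg_of_nonpos ht0 (not_lt.1 h)
          linarith [h3 s hs]
      · simp only [LinearMap.add_apply, LinearMap.smul_apply, smul_eq_mul, hx0, mul_zero, add_zero]
        exact h4
      · rw [linearIndependent_finCons]
        refine ⟨h5, fun hmem => ?_⟩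
        have : Submodule.span ℝ (Set.range Y) ≤ LinearMap.ker ψ := by
          rw [Submodule.span_le]
          rintro _ ⟨i, rfl⟩
          exact hY0 i
        exact hs0.2.ne' (LinearMap.mem_ker.1 (this hmem))
    rcases lt_or_gt_of_ne hsψ with h | h
    · exact key (-ψ) (by simp [hψx]) (fun i => by simp [hψY i]) ⟨s, hs, by simpa using h⟩
    · exact key ψ hψx hψY ⟨s, hs, h⟩

end Pool.Agent.Lib.H49SV
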