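import Mathlib

set_option autoImplicit false

namespace Pool.Agent.Lib.H49SV

open Module

/-- The vector `(x, 1)`. -/
def hat {E : Type} (x : E) : E × ℝ := (x, 1)

variable {E : Type} [NormedAddCommGroup E] [NormedSpace ℝ E] [FiniteDimensional ℝ E]

theorem mem_ext (S : Finset E) {x : E} (hx : x ∈ Set.extremePoints ℝ (convexHull ℝ (S : Set E))) :
    x ∈ S ∧ x ∉ convexHull ℝ ((S : Set E) \ {x}) := by
  have hxS : x ∈ (S : Set E) := extremePoints_convexHull_subset hx
  refine ⟨hxS, fun hmem => ?_⟩
  have h := (Convex.mem_extremePoints_iff_convex_diff (convex_convexHull ℝ (S : Set E))).1 hx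
  have h2 : convexHull ℝ ((S : Set E) \ {x}) ⊆ convexHull ℝ (S : Set E) \ {x} := by
    apply convexHull_min _ h.2
    exact Set.diff_subset_diff_left (subset_convexHull ℝ _)
  exact (h2 hmem).2 rfl

/-- An extreme point can be removed without losing the span, if there are more than `d + 1`
points. -/
theorem remove (S : Finset E) (hS : Submodule.span ℝ (hat '' (S : Set E)) = ⊤)
    (hc : finrank ℝ E + 1 < S.card) :
    ∃ x ∈ S, x ∉ convexHull ℝ ((S : Set E) \ {x}) ∧
      Submodule.span ℝ (hat '' ((S : Set E) \ {x})) = ⊤ := by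
  classical
  by_contra hcon
  simp only [not_exists, not_and] at hcon
  set K := convexHull ℝ (S : Set E) with hK
  have hKc : IsCompact K := S.finite_toSet.isCompact_convexHull ℝ
  have hext : K.extremePoints ℝ ⊆ (S : Set E) := extremePoints_convexHull_subset
  have hfin : (K.extremePoints ℝ).Finite := S.finite_toSet.subset hext
  have hKM : convexHull ℝ (K.extremePoints ℝ) = K := by
    have h1 := closure_convexHull_extremePoints hKc (convex_convexHull ℝ _)
    rwa [(hfin.isCompact_convexHull ℝ).isClosed.closure_eq] at h1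
  -- the functional of an extreme point
  have hfun : ∀ x ∈ K.extremePoints ℝ, ∃ ψ : (E × ℝ) →ₗ[ℝ] ℝ,
      (∀ y ∈ S, y ≠ x → ψ (hat y) = 0) ∧ ψ (hat x) ≠ 0 := by
    intro x hx
    obtain ⟨hxS, hxn⟩ := mem_ext S hx
    have hlt : Submodule.span ℝ (hat '' ((S : Set E) \ {x})) < ⊤ :=
      lt_top_iff_ne_top.2 (hcon x hxS hxn)
    obtain ⟨ψ, hψ0, hψ⟩ := Submodule.exists_le_ker_of_lt_top _ hlt
    have h0 : ∀ y ∈ S, y ≠ x → ψ (hat y) = 0 := by
      intro y hy hyx
      exact LinearMap.mem_ker.1 (hψ (Submodule.subset_span ⟨y, ⟨hy, hyx⟩, rfl⟩))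
    refine ⟨ψ, h0, fun h => hψ0 ?_⟩
    have : Submodule.span ℝ (hat '' (S : Set E)) ≤ LinearMap.ker ψ := by
      rw [Submodule.span_le]
      rintro _ ⟨y, hy, rfl⟩
      by_cases hyx : y = x
      · subst hyx; exact h
      · exact h0 y hy hyx
    rw [hS, top_le_iff] at this
    exact LinearMap.ker_eq_top.1 this
  -- every point is extreme
  have hall : ∀ z ∈ S, z ∈ K.extremePoints ℝ := by
    intro z hz
    have hzK : z ∈ convexHull ℝ ((hfin.toFinset : Finset E) : Set E) := by
      rw [Set.Finite.coe_toFinset, hKM]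
      exact subset_convexHull ℝ _ hz
    obtain ⟨w, hw0, hw1, hwz⟩ := Finset.mem_convexHull'.1 hzK
    obtain ⟨x, hx, hwx⟩ : ∃ x ∈ hfin.toFinset, w x ≠ 0 := by
      by_contra h
      simp only [not_exists, not_and, not_not] at h
      rw [Finset.sum_eq_zero h] at hw1
      norm_num at hw1
    have hxe : x ∈ K.extremePoints ℝ := by simpa using hx
    obtain ⟨ψ, hψ, hψx⟩ := hfun x hxe
    by_cases hzx : z = x
    · rw [hzx]; exact hxe
    · exfalso
      have h1 : ψ (hat z) = w x * ψ (hat x) := by
        have h2 : hat z = ∑ y ∈ hfin.toFinset, w y • hat y := by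
          unfold hat
          ext1
          · simp [Prod.fst_sum, hwz]
          · simp [Prod.snd_sum, hw1]
        rw [h2, map_sum, Finset.sum_eq_single x]
        · simp
        · intro y hy hyx
          have hyS : y ∈ S := hext (by simpa using hy)
          rw [map_smul, hψ y hyS hyx, smul_zero]
        · intro h; exact absurd hx h
      rw [hψ z hz hzx] at h1
      exact mul_ne_zero hwx hψx h1.symm
  -- linear independence
  choose! ψ hψ hψx using fun x (hx : x ∈ S) => hfun x (hall x hx)
  have hli : LinearIndependent ℝ (fun x : S => hat (x : E)) := by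
    rw [Fintype.linearIndependent_iff]
    intro c hc i
    have h1 := congrArg (ψ i) hc
    rw [map_sum, map_zero, Finset.sum_eq_single i] at h1
    · rw [map_smul, smul_eq_mul] at h1
      exact (mul_eq_zero.1 h1).resolve_right (hψx i i.2)
    · intro b _ hb
      rw [map_smul, hψ i i.2 b b.2 (fun h => hb (Subtype.ext h)), smul_zero]
    · intro h; exact absurd (Finset.mem_univ _) h
  have h1 := hli.fintype_card_le_finrank
  rw [Fintype.card_coe, finrank_prod, finrank_self] at h1
  omega

end Pool.Agent.Lib.H49SV
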