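import Pool.Agent.Lib.H49SV.A
import Pool.Agent.Lib.H49SV.B

set_option autoImplicit false

namespace Pool.Agent.Lib.H49SV

open Module MeasureTheory

variable {d : ℕ}

/-- The linear functional `g` of `E × ℝ` as an affine function on `E`. -/
theorem convex_le (g : ((Fin d → ℝ) × ℝ) →ₗ[ℝ] ℝ) : Convex ℝ {z : Fin d → ℝ | g (hat z) ≤ 0} := by
  intro x hx y hy a b ha hb hab
  have h : hat (a • x + b • y) = a • hat x + b • hat y := by
    unfold hat
    ext1
    · simp
    · simp [hab]
  simp only [Set.mem_ofPred_eq] at hx hy ⊢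
  rw [h, map_add, map_smul, map_smul]
  simp only [smul_eq_mul]
  nlinarith

theorem null (g : ((Fin d → ℝ) × ℝ) →ₗ[ℝ] ℝ) (x : Fin d → ℝ) (hx : g (hat x) ≠ 0) :
    volume {z : Fin d → ℝ | g (hat z) = 0} = 0 := by
  by_cases hne : ∃ p : Fin d → ℝ, g (hat p) = 0
  · obtain ⟨p, hp⟩ := hne
    set φ : (Fin d → ℝ) →ₗ[ℝ] ℝ := g.comp (LinearMap.inl ℝ _ _) with hφ
    have h1 : {z : Fin d → ℝ | g (hat z) = 0} =
        (AffineSubspace.mk' p (LinearMap.ker φ) : Set (Fin d → ℝ)) := by
      ext z
      simp only [Set.mem_ofPred_eq, SetLike.mem_coe, AffineSubspace.mem_mk', LinearMap.mem_ker,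
        hφ, LinearMap.comp_apply, LinearMap.inl_apply, vsub_eq_sub]
      have h2 : ((z - p, 0) : (Fin d → ℝ) × ℝ) = hat z - hat p := by
        unfold hat
        ext1 <;> simp
      rw [h2, map_sub, hp, sub_zero]
    rw [h1]
    apply Measure.addHaar_affineSubspace
    intro htop
    apply hx
    have : x ∈ (AffineSubspace.mk' p (LinearMap.ker φ) : Set (Fin d → ℝ)) := by
      rw [htop]; simp
    rw [← h1] at this
    exact this
  · have : {z : Fin d → ℝ | g (hat z) = 0} = ∅ := by
      ext z
      simp only [Set.mem_ofPred_eq, Set.mem_empty_iff_false, iff_false]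
      exact fun h => hne ⟨z, h⟩
    rw [this, measure_empty]

theorem hat_inj {E : Type} {x y : E} (h : hat x = hat y) : x = y := congrArg Prod.fst h

/-- The volume of the convex hull is at least `|S| - d` times the least volume of a simplex. -/
theorem hull_volume (a : ENNReal) (m : ℕ) : ∀ S : Finset (Fin d → ℝ), S.card = m + (d + 1) →
    Submodule.span ℝ (hat '' (S : Set (Fin d → ℝ))) = ⊤ →
    (∀ y : Fin (d + 1) → (Fin d → ℝ), (∀ i, y i ∈ S) → LinearIndependent ℝ (fun i => hat (y i)) →
      a ≤ volume (convexHull ℝ (Set.range y))) →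
    (m + 1 : ENNReal) * a ≤ volume (convexHull ℝ (S : Set (Fin d → ℝ))) := by
  classical
  induction m with
  | zero =>
    intro S hc hS ha
    have e : Fin (d + 1) ≃ S := (Fintype.equivFinOfCardEq (by
      rw [Fintype.card_coe, hc, zero_add])).symm
    have h1 : Set.range (fun i => ((e i : S) : Fin d → ℝ)) = (S : Set (Fin d → ℝ)) := by
      ext z
      simp only [Set.mem_range, Finset.mem_coe]
      constructor
      · rintro ⟨i, rfl⟩; exact (e i).2
      · intro hz
        exact ⟨e.symm ⟨z, hz⟩, by simp⟩
    have h2 := ha (fun i => ((e i : S) : Fin d → ℝ)) (fun i => (e i).2) (by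
      apply linearIndependent_of_top_le_span_of_card_eq_finrank
      · rw [Set.range_comp' hat (fun i => ((e i : S) : Fin d → ℝ)), h1, hS]
      · rw [finrank_prod, finrank_self]
        simp)
    rw [h1] at h2
    simpa using h2
  | succ m ih =>
    intro S hc hS ha
    obtain ⟨x, hxS, hxn, hsp⟩ := remove S hS (by
      rw [hc]
      simp)
    have hcoe : ((S.erase x : Finset (Fin d → ℝ)) : Set (Fin d → ℝ)) = (S : Set _) \ {x} := by
      simp
    have hsub : convexHull ℝ ((S.erase x : Finset (Fin d → ℝ)) : Set (Fin d → ℝ)) ⊆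
        convexHull ℝ (S : Set (Fin d → ℝ)) := by
      apply convexHull_mono
      simp
    have h1 := ih (S.erase x) (by rw [Finset.card_erase_of_mem hxS, hc]; omega)
      (by rw [hcoe]; exact hsp)
      (fun y hy hl => ha y (fun i => Finset.mem_of_mem_erase (hy i)) hl)
    -- the separating functional
    have hcl : IsClosed (convexHull ℝ ((S : Set (Fin d → ℝ)) \ {x})) := by
      have : ((S : Set (Fin d → ℝ)) \ {x}).Finite := S.finite_toSet.subset Set.diff_subset
      exact (this.isCompact_convexHull ℝ).isClosed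
    obtain ⟨f, u, hf1, hf2⟩ := geometric_hahn_banach_closed_point (convex_convexHull ℝ _) hcl hxn
    let g : ((Fin d → ℝ) × ℝ) →ₗ[ℝ] ℝ :=
      (f : (Fin d → ℝ) →ₗ[ℝ] ℝ).comp (LinearMap.fst ℝ _ _) - u • (LinearMap.snd ℝ _ _)
    have hg : ∀ z : Fin d → ℝ, g (hat z) = f z - u := by
      intro z
      simp [g, hat]
    obtain ⟨g', Y, hY1, hY2, hY3, hY4, hY5⟩ := facet
      ((S.erase x).image hat) (by
        rw [Finset.coe_image, hcoe]
        exact hsp) (hat x) g (by
        intro s hs
        obtain ⟨z, hz, rfl⟩ := Finset.mem_image.1 hs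
        rw [hg]
        have := hf1 z (subset_convexHull ℝ _ (by rw [← hcoe]; exact hz))
        linarith) (by rw [hg]; linarith) d (by rw [finrank_prod, finrank_self]; simp)
    choose y hy hyY using fun i => Finset.mem_image.1 (hY1 i)
    have h2 := ha (Fin.cons x y) (by
        intro i
        refine Fin.cases ?_ (fun i => ?_) i
        · simpa using hxS
        · simpa using Finset.mem_of_mem_erase (hy i)) (by
        have h3 : (fun i => hat ((Fin.cons x y : Fin (d + 1) → (Fin d → ℝ)) i)) =
            (Fin.cons (hat x) Y : Fin (d + 1) → (Fin d → ℝ) × ℝ) := by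
          funext i
          refine Fin.cases ?_ (fun i => ?_) i
          · simp
          · simp [hyY]
        rw [h3, linearIndependent_finCons]
        refine ⟨hY5, fun hmem => ?_⟩
        have : Submodule.span ℝ (Set.range Y) ≤ LinearMap.ker g' := by
          rw [Submodule.span_le]
          rintro _ ⟨i, rfl⟩
          exact hY2 i
        exact hY4.ne' (LinearMap.mem_ker.1 (this hmem)))
    set Δ := convexHull ℝ (Set.range (Fin.cons x y : Fin (d + 1) → (Fin d → ℝ))) with hΔ
    have hΔS : Δ ⊆ convexHull ℝ (S : Set (Fin d → ℝ)) := by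
      apply convexHull_mono
      rintro _ ⟨i, rfl⟩
      refine Fin.cases ?_ (fun i => ?_) i
      · simpa using hxS
      · simpa using Finset.mem_of_mem_erase (hy i)
    have hΔm : MeasurableSet Δ :=
      ((Set.finite_range _).isCompact_convexHull ℝ).isClosed.measurableSet
    have hle : ∀ z ∈ convexHull ℝ ((S.erase x : Finset (Fin d → ℝ)) : Set (Fin d → ℝ)),
        g' (hat z) ≤ 0 := by
      intro z hz
      have : convexHull ℝ ((S.erase x : Finset (Fin d → ℝ)) : Set (Fin d → ℝ)) ⊆
          {z | g' (hat z) ≤ 0} := by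
        apply convexHull_min _ (convex_le g')
        intro s hs
        exact hY3 _ (Finset.mem_image_of_mem _ (Finset.mem_coe.1 hs))
      exact this hz
    have hge : ∀ z ∈ Δ, 0 ≤ g' (hat z) := by
      intro z hz
      have : Δ ⊆ {z | (-g') (hat z) ≤ 0} := by
        apply convexHull_min _ (convex_le (-g'))
        rintro _ ⟨i, rfl⟩
        refine Fin.cases ?_ (fun i => ?_) i
        · simpa using hY4.le
        · simp only [Set.mem_ofPred_eq, Fin.cons_succ, LinearMap.neg_apply, hyY, hY2, neg_zero,
            le_refl]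
      have h3 := this hz
      simp only [Set.mem_ofPred_eq, LinearMap.neg_apply] at h3
      linarith
    have hdisj : AEDisjoint volume
        (convexHull ℝ ((S.erase x : Finset (Fin d → ℝ)) : Set (Fin d → ℝ))) Δ := by
      refine measure_mono_null ?_ (null g' x hY4.ne')
      rintro z ⟨hz1, hz2⟩
      exact le_antisymm (hle z hz1) (hge z hz2)
    calc ((m + 1 : ℕ) + 1 : ENNReal) * a = (m + 1 : ENNReal) * a + a := by
          push_cast
          rw [add_mul (m + 1 : ENNReal) 1 a, one_mul]
      _ ≤ volume (convexHull ℝ ((S.erase x : Finset (Fin d → ℝ)) : Set (Fin d → ℝ))) +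
          volume Δ := add_le_add h1 h2
      _ = volume (convexHull ℝ ((S.erase x : Finset (Fin d → ℝ)) : Set (Fin d → ℝ)) ∪ Δ) :=
          (measure_union₀ hΔm.nullMeasurableSet hdisj).symm
      _ ≤ volume (convexHull ℝ (S : Set (Fin d → ℝ))) :=
          measure_mono (Set.union_subset hsub hΔS)

end Pool.Agent.Lib.H49SV
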