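import Mathlib

set_option autoImplicit false

namespace Pool.Agent.Lib.H49SV

open MeasureTheory

variable {d : ℕ}

/-- The differences of the vertices. -/
def diffs (y : Fin (d + 1) → (Fin d → ℝ)) : Matrix (Fin d) (Fin d) ℝ :=
  Matrix.of fun i j => y i.succ j - y 0 j

/-- The standard simplex. -/
def std (d : ℕ) : Set (Fin d → ℝ) :=
  convexHull ℝ (Set.range (Fin.cons 0 (fun i => Pi.single i 1) : Fin (d + 1) → (Fin d → ℝ)))

/-- The volume of a simplex. -/
theorem simplex_volume (y : Fin (d + 1) → (Fin d → ℝ)) :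
    volume (convexHull ℝ (Set.range y)) = ENNReal.ofReal |(diffs y).det| * volume (std d) := by
  set L := Matrix.toLin' (diffs y).transpose with hL
  have h1 : Set.range y = (fun z => z + y 0) '' (L '' (Set.range
      (Fin.cons 0 (fun i => Pi.single i 1) : Fin (d + 1) → (Fin d → ℝ)))) := by
    rw [← Set.range_comp, ← Set.range_comp]
    congr 1
    funext i
    refine Fin.cases ?_ (fun i => ?_) i
    · simp
    · simp only [Function.comp_apply, Fin.cons_succ, hL, Matrix.toLin'_apply,
        Matrix.mulVec_single_one]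
      funext j
      simp [diffs]
  have h2 : convexHull ℝ (Set.range y) = (fun z => z + y 0) '' (L '' (std d)) := by
    have h3 := (AffineMap.image_convexHull
      (f := (L.toAffineMap + AffineMap.const ℝ (Fin d → ℝ) (y 0)))
      (s := Set.range (Fin.cons 0 (fun i => Pi.single i 1) : Fin (d + 1) → (Fin d → ℝ))))
    have h4 : ∀ s : Set (Fin d → ℝ),
        (L.toAffineMap + AffineMap.const ℝ (Fin d → ℝ) (y 0)) '' s =
          (fun z => z + y 0) '' (L '' s) := by
      intro s
      rw [Set.image_image]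
      apply Set.image_congr
      intro z _
      simp
    rw [h4, h4] at h3
    rw [h1]
    exact h3.symm
  rw [h2, Set.image_add_right, measure_preimage_add_right, Measure.addHaar_image_linearMap, hL,
    LinearMap.det_toLin', Matrix.det_transpose]

theorem mem_std (z : Fin d → ℝ) (h0 : ∀ i, 0 ≤ z i) (h1 : ∑ i, z i ≤ 1) : z ∈ std d := by
  have h2 := (convex_convexHull ℝ (Set.range
    (Fin.cons 0 (fun i => Pi.single i 1) : Fin (d + 1) → (Fin d → ℝ)))).sum_mem
    (t := Finset.univ) (w := (Fin.cons (1 - ∑ i, z i) z : Fin (d + 1) → ℝ))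
    (z := (Fin.cons 0 (fun i => Pi.single i 1) : Fin (d + 1) → (Fin d → ℝ)))
    (by
      intro i _
      refine Fin.cases ?_ (fun i => ?_) i
      · simpa using h1
      · simpa using h0 i)
    (by rw [Fin.sum_univ_succ]; simp)
    (fun i _ => subset_convexHull ℝ _ ⟨i, rfl⟩)
  have h3 : ∑ i, (Fin.cons (1 - ∑ i, z i) z : Fin (d + 1) → ℝ) i •
      (Fin.cons 0 (fun i => Pi.single i 1) : Fin (d + 1) → (Fin d → ℝ)) i = z := by
    rw [Fin.sum_univ_succ]
    simp only [Fin.cons_zero, smul_zero, Fin.cons_succ, zero_add]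
    funext j
    simp [Finset.sum_apply, Pi.single_apply]
  rw [h3] at h2
  exact h2

theorem std_volume (d : ℕ) : 1 ≤ (d.factorial : ENNReal) * volume (std d) := by
  classical
  set s : (Fin d → Bool) → Fin d → ℝ := fun ε i => if ε i then 1 else -1 with hs
  have habs : ∀ ε i, |s ε i| = 1 := by
    intro ε i
    simp only [hs]
    split_ifs <;> simp
  have hcov : {x : Fin d → ℝ | ∑ i, |x i| ^ (1 : ℝ) < 1} ⊆
      ⋃ ε : Fin d → Bool, Matrix.toLin' (Matrix.diagonal (s ε)) '' std d := by
    intro x hx
    have hx' : ∑ i, |x i| < 1 := by simpa using hx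
    rw [Set.mem_iUnion]
    refine ⟨fun i => decide (0 ≤ x i), fun i => |x i|, mem_std _ (fun i => abs_nonneg _) hx'.le,
      ?_⟩
    funext i
    rw [Matrix.toLin'_apply, Matrix.mulVec_diagonal]
    simp only [hs, decide_eq_true_eq]
    split_ifs with h
    · rw [abs_of_nonneg h, one_mul]
    · rw [abs_of_neg (not_le.1 h)]; ring
  have h1 := measure_mono (μ := volume) hcov
  have h2 := h1.trans (measure_iUnion_le _)
  rw [volume_sum_rpow_lt_one (ι := Fin d) le_rfl, tsum_fintype] at h2
  have h3 : ∀ ε : Fin d → Bool,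
      volume (Matrix.toLin' (Matrix.diagonal (s ε)) '' std d) = volume (std d) := by
    intro ε
    rw [Measure.addHaar_image_linearMap, LinearMap.det_toLin', Matrix.det_diagonal,
      Finset.abs_prod]
    simp [habs]
  simp only [h3, Finset.sum_const, Finset.card_univ, Fintype.card_fin, Fintype.card_pi,
    Fintype.card_bool, Finset.prod_const, div_one] at h2
  have h4 : (2 * Real.Gamma (1 + 1)) ^ d / Real.Gamma ((d : ℝ) + 1) = 2 ^ d / d.factorial := by
    rw [Real.Gamma_nat_eq_factorial, Real.Gamma_add_one one_ne_zero, Real.Gamma_one]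
    norm_num
  rw [h4] at h2
  have h5 : (1 : ENNReal) = d.factorial * ENNReal.ofReal (1 / d.factorial) := by
    rw [ENNReal.ofReal_div_of_pos (by positivity), ENNReal.ofReal_one, ENNReal.ofReal_natCast]
    rw [ENNReal.mul_div_cancel] <;> simp [Nat.factorial_ne_zero]
  rw [h5]
  gcongr
  have h6 : ENNReal.ofReal (2 ^ d / d.factorial) = 2 ^ d * ENNReal.ofReal (1 / d.factorial) := by
    rw [div_eq_mul_one_div, ENNReal.ofReal_mul (by positivity)]
    congr 1
    rw [ENNReal.ofReal_pow (by norm_num)]
    norm_num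
  rw [h6, nsmul_eq_mul] at h2
  push_cast at h2
  exact (ENNReal.mul_le_mul_iff_right (by positivity) (by finiteness)).1 h2

end Pool.Agent.Lib.H49SV
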