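import Pool.Agent.Lib.H49SV.C
import Pool.Agent.Lib.H49SV.D

set_option autoImplicit false

namespace Pool.Agent.Lib.H49SV

open Module MeasureTheory

variable {d : ℕ}

/-- Half of the cube. -/
def half (d : ℕ) : Set (Fin d → ℝ) := {t | (∀ i, |t i| ≤ 1) ∧ 0 ≤ ∑ i, t i}

theorem half_eq (d : ℕ) : half d = Set.Icc (fun _ => -1) (fun _ => 1) ∩ {t | 0 ≤ ∑ i, t i} := by
  ext t
  simp only [half, Set.mem_ofPred_eq, Set.mem_inter_iff, Set.mem_Icc, Pi.le_def, abs_le]
  constructor
  · rintro ⟨h1, h2⟩; exact ⟨⟨fun i => (h1 i).1, fun i => (h1 i).2⟩, h2⟩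
  · rintro ⟨⟨h1, h2⟩, h3⟩; exact ⟨fun i => ⟨h1 i, h2 i⟩, h3⟩

theorem half_convex (d : ℕ) : Convex ℝ (half d) := by
  rw [half_eq]
  apply (convex_Icc _ _).inter
  intro x hx y hy a b ha hb hab
  simp only [Set.mem_ofPred_eq] at hx hy ⊢
  have : ∑ i, (a • x + b • y) i = a * ∑ i, x i + b * ∑ i, y i := by
    simp [Finset.sum_add_distrib, Finset.mul_sum]
  rw [this]
  positivity

theorem half_meas (d : ℕ) : MeasurableSet (half d) := by
  rw [half_eq]
  apply measurableSet_Icc.inter
  exact measurableSet_le measurable_const (by fun_prop)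

theorem half_volume (d : ℕ) (hd : 1 ≤ d) : 2 * volume (half d) ≤ 2 ^ d := by
  have h1 : AEDisjoint volume (half d) (-half d) := by
    let g : ((Fin d → ℝ) × ℝ) →ₗ[ℝ] ℝ :=
      (∑ i, LinearMap.proj i : (Fin d → ℝ) →ₗ[ℝ] ℝ).comp (LinearMap.fst ℝ _ _)
    have hg : ∀ z : Fin d → ℝ, g (hat z) = ∑ i, z i := by
      intro z
      simp [g, hat]
    refine measure_mono_null ?_ (null g (fun _ => 1) (by rw [hg]; simp; omega))
    rintro z ⟨hz1, hz2⟩
    simp only [Set.mem_ofPred_eq, hg]
    have h2 := hz1.2
    have h3 := (Set.mem_neg.1 hz2).2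
    simp only [Pi.neg_apply, Finset.sum_neg_distrib] at h3
    linarith
  have h2 : volume (-half d) = volume (half d) := Measure.measure_neg _ _
  have h3 : half d ∪ -half d ⊆ Set.Icc (fun _ => -1) (fun _ => 1) := by
    rintro z (hz | hz)
    · rw [half_eq] at hz; exact hz.1
    · have h4 := Set.mem_neg.1 hz
      rw [half_eq] at h4
      have h5 := h4.1
      rw [Set.mem_Icc, Pi.le_def, Pi.le_def] at h5 ⊢
      constructor
      · intro i; have := h5.2 i; simp only [Pi.neg_apply] at this; linarith
      · intro i; have := h5.1 i; simp only [Pi.neg_apply] at this; linarith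
  calc 2 * volume (half d) = volume (half d) + volume (-half d) := by rw [h2, two_mul]
    _ = volume (half d ∪ -half d) :=
        (measure_union₀ (half_meas d).neg.nullMeasurableSet h1).symm
    _ ≤ volume (Set.Icc (fun _ : Fin d => (-1 : ℝ)) (fun _ => 1)) := measure_mono h3
    _ = 2 ^ d := by
        rw [Real.volume_Icc_pi]
        simp
        norm_num

/-- Linear independence of the lifted vertices gives a nonzero determinant. -/
theorem det_ne {y : Fin (d + 1) → (Fin d → ℝ)} (h : LinearIndependent ℝ (fun i => hat (y i))) :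
    (diffs y).det ≠ 0 := by
  intro h0
  obtain ⟨v, hv0, hv⟩ := Matrix.exists_vecMul_eq_zero_iff.2 h0
  apply hv0
  rw [Fintype.linearIndependent_iff] at h
  have h1 := h (Fin.cons (-∑ i, v i) v) (by
    rw [Fin.sum_univ_succ]
    simp only [Fin.cons_zero, Fin.cons_succ]
    have h2 : ∀ j, ∑ i, v i * (y i.succ j - y 0 j) = 0 := by
      intro j
      have := congrFun hv j
      simpa [Matrix.vecMul, dotProduct, diffs] using this
    ext j
    · have := h2 j
      simp only [mul_sub, Finset.sum_sub_distrib, ← Finset.sum_mul] at this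
      simp only [hat, Prod.fst_add, Prod.smul_fst, Prod.fst_sum, Pi.add_apply, Pi.smul_apply,
        Finset.sum_apply, smul_eq_mul, Prod.fst_zero, Pi.zero_apply]
      linarith
    · simp [hat, Prod.snd_sum])
  funext i
  simpa using h1 i.succ

/-- Coordinates with respect to a simplex whose volume does not increase if a vertex is replaced
by `x`. -/
theorem mem_image (y : Fin (d + 1) → (Fin d → ℝ)) (hy : (diffs y).det ≠ 0) (x : Fin d → ℝ)
    (hx : ∀ i, |(diffs (Function.update y i x)).det| ≤ |(diffs y).det|) :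
    x ∈ (fun z => z + y 0) '' (Matrix.toLin' (diffs y).transpose '' half d) := by
  classical
  set M := diffs y with hM
  have hu : IsUnit M.det := isUnit_iff_ne_zero.2 hy
  set t := Matrix.vecMul (x - y 0) M⁻¹ with ht
  have h1 : Matrix.vecMul t M = x - y 0 := by
    rw [ht, Matrix.vecMul_vecMul, Matrix.nonsing_inv_mul _ hu, Matrix.vecMul_one]
  have h2 : ∑ k, t k • M k = x - y 0 := by
    rw [← h1]
    funext j
    simp [Matrix.vecMul, dotProduct, Finset.sum_apply]
  have hpos : 0 < |M.det| := abs_pos.2 hy
  refine ⟨x - y 0, ⟨t, ⟨?_, ?_⟩, ?_⟩, by simp⟩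
  · intro i
    have h3 : diffs (Function.update y i.succ x) = M.updateRow i (∑ k, t k • M k) := by
      rw [h2]
      ext a b
      by_cases hab : a = i
      · subst hab
        simp [diffs, Matrix.updateRow_self, Function.update_of_ne (Fin.succ_ne_zero a).symm]
      · rw [Matrix.updateRow_ne hab]
        simp only [diffs, Matrix.of_apply, hM]
        rw [Function.update_of_ne (fun h => hab (Fin.succ_injective _ h)),
          Function.update_of_ne (Fin.succ_ne_zero i).symm]
    have h4 := hx i.succ
    rw [h3, Matrix.det_updateRow_sum, smul_eq_mul, abs_mul] at h4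
    exact (mul_le_iff_le_one_left hpos).1 h4
  · have h3 : diffs (Function.update y 0 x) =
        M + Matrix.replicateCol Unit (fun _ => (-1 : ℝ)) * Matrix.replicateRow Unit (x - y 0) := by
      ext a b
      simp only [diffs, Matrix.of_apply, hM, Matrix.add_apply, Matrix.mul_apply,
        Matrix.replicateCol_apply, Matrix.replicateRow_apply, Finset.univ_unique,
        Finset.sum_singleton, Function.update_self, Pi.sub_apply]
      rw [Function.update_of_ne (Fin.succ_ne_zero a)]
      ring
    have h4 := hx 0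
    rw [h3, Matrix.det_add_replicateCol_mul_replicateRow hu, abs_mul] at h4
    have h5 := (mul_le_iff_le_one_right hpos).1 h4
    rw [Matrix.det_unique, Matrix.add_apply, Matrix.one_apply_eq, Matrix.mul_apply] at h5
    have h6 : ∀ i : Fin d, (Matrix.replicateRow Unit (x - y 0) * M⁻¹) default i = t i :=
      fun i => rfl
    simp only [h6, Matrix.replicateCol_apply, mul_neg, mul_one, Finset.sum_neg_distrib] at h5
    have := (abs_le.1 h5).2
    linarith
  · rw [Matrix.toLin'_apply, Matrix.mulVec_transpose, h1]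

end Pool.Agent.Lib.H49SV
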