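import Pool.Agent.Lib.H49SV.E

set_option autoImplicit false

namespace Pool.Agent.Lib.H49SV

open Module MeasureTheory

variable {d : ℕ}

theorem span_hat (S : Set (Fin d → ℝ)) (hS : affineSpan ℝ S = ⊤) :
    Submodule.span ℝ (hat '' S) = ⊤ := by
  by_contra hne
  obtain ⟨ψ, hψ0, hψ⟩ := Submodule.exists_le_ker_of_lt_top _ (lt_top_iff_ne_top.2 hne)
  have h0 : ∀ s ∈ S, ψ (hat s) = 0 := fun s hs =>
    LinearMap.mem_ker.1 (hψ (Submodule.subset_span ⟨s, hs, rfl⟩))
  obtain ⟨p, hp⟩ : S.Nonempty := by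
    rw [← affineSpan_nonempty ℝ, hS]
    exact ⟨0, trivial⟩
  set φ : (Fin d → ℝ) →ₗ[ℝ] ℝ := ψ.comp (LinearMap.inl ℝ _ _) with hφ
  have hφz : ∀ z w : Fin d → ℝ, φ (z - w) = ψ (hat z) - ψ (hat w) := by
    intro z w
    rw [hφ, LinearMap.comp_apply, LinearMap.inl_apply, ← map_sub]
    congr 1
    unfold hat
    ext1 <;> simp
  have h1 : affineSpan ℝ S ≤ AffineSubspace.mk' p (LinearMap.ker φ) := by
    rw [affineSpan_le]
    intro s hs
    rw [SetLike.mem_coe, AffineSubspace.mem_mk', LinearMap.mem_ker, vsub_eq_sub, hφz,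
      h0 s hs, h0 p hp, sub_zero]
  rw [hS, top_le_iff] at h1
  have h2 : ∀ z : Fin d → ℝ, ψ (hat z) = 0 := by
    intro z
    have h3 : z ∈ AffineSubspace.mk' p (LinearMap.ker φ) := by rw [h1]; trivial
    rw [AffineSubspace.mem_mk', LinearMap.mem_ker, vsub_eq_sub, hφz, h0 p hp, sub_zero] at h3
    exact h3
  apply hψ0
  apply LinearMap.ext
  rintro ⟨z, t⟩
  have h3 : ((z, t) : (Fin d → ℝ) × ℝ) = hat z + (t - 1) • hat 0 := by
    unfold hat
    ext1 <;> simp
  rw [h3, map_add, map_smul, h2, h2]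
  simp

/-- The main inequality, for the determinants. -/
theorem main (hd : 1 ≤ d) (n : ℕ) (X : Fin n → (Fin d → ℝ)) (hX : Function.Injective X)
    (hspan : affineSpan ℝ (Set.range X) = ⊤) (hn : d + 1 ≤ n) (δ D : ℝ) (hδ : 0 ≤ δ)
    (hmin : ∀ u : Fin (d + 1) → Fin n, (diffs (X ∘ u)).det ≠ 0 → δ ≤ |(diffs (X ∘ u)).det|)
    (v : Fin (d + 1) → Fin n) (hv : (diffs (X ∘ v)).det ≠ 0) (hD : |(diffs (X ∘ v)).det| = D)
    (hmax : ∀ u : Fin (d + 1) → Fin n, |(diffs (X ∘ u)).det| ≤ D) :
    ((n : ℝ) - d) * δ ≤ 2 ^ (d - 1) * d.factorial * D := by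
  classical
  set S : Finset (Fin d → ℝ) := Finset.univ.image X with hS
  have hSr : (S : Set (Fin d → ℝ)) = Set.range X := by simp [hS]
  have hcard : S.card = n := by rw [hS, Finset.card_image_of_injective _ hX]; simp
  obtain ⟨m, hm⟩ := Nat.exists_eq_add_of_le hn
  have h1 := hull_volume (ENNReal.ofReal δ * volume (std d)) m S (by omega)
    (by rw [hSr]; exact span_hat _ hspan) (by
      intro y hy hl
      choose u hu using fun i => (Finset.mem_image.1 (hy i))
      have hyu : y = X ∘ u := funext fun i => (hu i).2.symm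
      rw [simplex_volume, hyu]
      gcongr
      apply hmin
      rw [← hyu]
      exact det_ne hl)
  -- upper bound
  set T : (Fin d → ℝ) → (Fin d → ℝ) := fun z => Matrix.toLin' (diffs (X ∘ v)).transpose z
    with hT
  have h2 : convexHull ℝ (S : Set (Fin d → ℝ)) ⊆
      (fun z => z + (X ∘ v) 0) '' (Matrix.toLin' (diffs (X ∘ v)).transpose '' half d) := by
    apply convexHull_min
    · intro x hx
      rw [hSr] at hx
      obtain ⟨i, rfl⟩ := hx
      apply mem_image _ hv
      intro k
      have h3 : Function.update (X ∘ v) k (X i) = X ∘ (Function.update v k i) := by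
        rw [Function.comp_update]
      rw [h3, hD]
      exact hmax _
    · have h3 : Convex ℝ (Matrix.toLin' (diffs (X ∘ v)).transpose '' half d) :=
        (half_convex d).linear_image _
      have h4 := h3.translate ((X ∘ v) 0)
      have h5 : (fun z => z + (X ∘ v) 0) = (fun z => (X ∘ v) 0 + z) := by
        funext z; rw [add_comm]
      rw [h5]
      exact h4
  have h3 : volume (convexHull ℝ (S : Set (Fin d → ℝ))) ≤ ENNReal.ofReal D * volume (half d) := by
    refine (measure_mono h2).trans ?_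
    rw [Set.image_add_right, measure_preimage_add_right, Measure.addHaar_image_linearMap,
      LinearMap.det_toLin', Matrix.det_transpose, hD]
  have h4 := h1.trans h3
  -- multiply by `2 d!`
  have h5 : (m + 1 : ENNReal) * ENNReal.ofReal δ * 2 ≤
      ENNReal.ofReal D * 2 ^ d * d.factorial := by
    calc (m + 1 : ENNReal) * ENNReal.ofReal δ * 2
        ≤ (m + 1 : ENNReal) * ENNReal.ofReal δ * 2 * (d.factorial * volume (std d)) :=
          le_mul_of_one_le_right' (std_volume d)
      _ = 2 * ((m + 1 : ENNReal) * (ENNReal.ofReal δ * volume (std d))) * d.factorial := by ring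
      _ ≤ 2 * (ENNReal.ofReal D * volume (half d)) * d.factorial := by gcongr
      _ = ENNReal.ofReal D * (2 * volume (half d)) * d.factorial := by ring
      _ ≤ ENNReal.ofReal D * 2 ^ d * d.factorial := by gcongr; exact half_volume d hd
  have hD0 : 0 ≤ D := by rw [← hD]; exact abs_nonneg _
  have h6 : ENNReal.ofReal (((m : ℝ) + 1) * δ * 2) ≤ ENNReal.ofReal (D * 2 ^ d * d.factorial) := by
    rw [ENNReal.ofReal_mul (by positivity), ENNReal.ofReal_mul (by positivity),
      ENNReal.ofReal_mul (by positivity), ENNReal.ofReal_mul (by positivity),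
      ENNReal.ofReal_add (by positivity) (by norm_num), ENNReal.ofReal_natCast,
      ENNReal.ofReal_natCast, ENNReal.ofReal_pow (by norm_num), ENNReal.ofReal_one,
      ENNReal.ofReal_ofNat]
    exact h5
  have h7 := (ENNReal.ofReal_le_ofReal_iff (by positivity)).1 h6
  have h8 : (2 : ℝ) ^ d = 2 * 2 ^ (d - 1) := by
    obtain ⟨e, rfl⟩ := Nat.exists_eq_add_of_le hd
    rw [Nat.add_sub_cancel_left, pow_add, pow_one]
  have h9 : (n : ℝ) - d = m + 1 := by
    rw [hm]; push_cast; ring
  rw [h9]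
  rw [h8] at h7
  nlinarith

end Pool.Agent.Lib.H49SV
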