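import Pool.Agent.Lib.H49SV.G

set_option autoImplicit false

namespace Pool.Agent.Lib.H49SV

open Module MeasureTheory

variable {d : ℕ}

theorem std_ne_top (d : ℕ) : volume (std d) ≠ ⊤ :=
  (((Set.finite_range _).isCompact_convexHull ℝ).measure_lt_top).ne

theorem std_ne_zero (d : ℕ) : volume (std d) ≠ 0 := by
  intro h
  have h1 := std_volume d
  rw [h, mul_zero] at h1
  exact absurd h1 (by simp)

/-- If `t` simplices cover the hull then `(n - d) δ ≤ t D`. -/
theorem cover (n : ℕ) (X : Fin n → (Fin d → ℝ)) (hX : Function.Injective X)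
    (hspan : affineSpan ℝ (Set.range X) = ⊤) (hn : d + 1 ≤ n) (δ D : ℝ) (hδ : 0 ≤ δ)
    (hD : 0 ≤ D)
    (hmin : ∀ u : Fin (d + 1) → Fin n, (diffs (X ∘ u)).det ≠ 0 → δ ≤ |(diffs (X ∘ u)).det|)
    (hmax : ∀ u : Fin (d + 1) → Fin n, |(diffs (X ∘ u)).det| ≤ D)
    (t : ℕ) (F : Fin t → Fin (d + 1) → Fin n)
    (hF : convexHull ℝ (Set.range X) ⊆ ⋃ j, convexHull ℝ (Set.range (X ∘ F j))) :
    ((n : ℝ) - d) * δ ≤ t * D := by
  classical
  set S : Finset (Fin d → ℝ) := Finset.univ.image X with hS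
  have hSr : (S : Set (Fin d → ℝ)) = Set.range X := by simp [hS]
  have hcard : S.card = n := by rw [hS, Finset.card_image_of_injective _ hX]; simp
  obtain ⟨m, hm⟩ := Nat.exists_eq_add_of_le hn
  have h1 := hull_volume (ENNReal.ofReal δ * volume (std d)) m S (by omega)
    (by rw [hSr]; exact span_hat _ hspan) (by
      intro y hy hl
      choose u hu using fun i => (Finset.mem_image.1 (hy i))
      have hyu : y = X ∘ u := funext fun i => (hu i).2.symm
      rw [simplex_volume, hyu]
      gcongr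
      apply hmin
      rw [← hyu]
      exact det_ne hl)
  have h2 : volume (convexHull ℝ (S : Set (Fin d → ℝ))) ≤
      t * (ENNReal.ofReal D * volume (std d)) := by
    rw [hSr]
    refine (measure_mono hF).trans ((measure_iUnion_le _).trans ?_)
    rw [tsum_fintype]
    calc ∑ j, volume (convexHull ℝ (Set.range (X ∘ F j)))
        ≤ ∑ _j : Fin t, ENNReal.ofReal D * volume (std d) := by
          apply Finset.sum_le_sum
          intro j _
          rw [simplex_volume]
          gcongr
          exact hmax _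
      _ = t * (ENNReal.ofReal D * volume (std d)) := by simp
  have h3 := h1.trans h2
  rw [← mul_assoc, ← mul_assoc] at h3
  have h4 := (ENNReal.mul_le_mul_iff_left (std_ne_zero d) (std_ne_top d)).1 h3
  have h5 : ENNReal.ofReal (((m : ℝ) + 1) * δ) ≤ ENNReal.ofReal (t * D) := by
    rw [ENNReal.ofReal_mul (by positivity), ENNReal.ofReal_mul (by positivity),
      ENNReal.ofReal_add (by positivity) (by norm_num), ENNReal.ofReal_natCast,
      ENNReal.ofReal_natCast, ENNReal.ofReal_one]
    exact h4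
  have h6 := (ENNReal.ofReal_le_ofReal_iff (by positivity)).1 h5
  have h7 : (n : ℝ) - d = m + 1 := by
    rw [hm]; push_cast; ring
  rw [h7]
  exact h6

theorem hull_ext (S : Set (Fin d → ℝ)) (hS : S.Finite) :
    convexHull ℝ ((convexHull ℝ S).extremePoints ℝ) = convexHull ℝ S := by
  have hKc : IsCompact (convexHull ℝ S) := hS.isCompact_convexHull ℝ
  have hfin : ((convexHull ℝ S).extremePoints ℝ).Finite :=
    hS.subset extremePoints_convexHull_subset
  have h1 := closure_convexHull_extremePoints hKc (convex_convexHull ℝ _)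
  rwa [(hfin.isCompact_convexHull ℝ).isClosed.closure_eq] at h1

theorem mem_hull_iff {m : ℕ} (w : Fin m → (Fin d → ℝ)) (z : Fin d → ℝ)
    (hz : z ∈ convexHull ℝ (Set.range w)) :
    ∃ c : Fin m → ℝ, (∀ i, 0 ≤ c i) ∧ ∑ i, c i = 1 ∧ ∑ i, c i • w i = z := by
  classical
  have h1 : Convex ℝ {z : Fin d → ℝ | ∃ c : Fin m → ℝ, (∀ i, 0 ≤ c i) ∧ ∑ i, c i = 1 ∧
      ∑ i, c i • w i = z} := by
    rintro x ⟨c, hc0, hc1, hcx⟩ y ⟨e, he0, he1, hey⟩ a b ha hb hab
    refine ⟨fun i => a * c i + b * e i, fun i => ?_, ?_, ?_⟩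
    · have := hc0 i; have := he0 i; positivity
    · rw [Finset.sum_add_distrib, ← Finset.mul_sum, ← Finset.mul_sum, hc1, he1, mul_one, mul_one,
        hab]
    · rw [← hcx, ← hey, Finset.smul_sum, Finset.smul_sum, ← Finset.sum_add_distrib]
      apply Finset.sum_congr rfl
      intro i _
      rw [add_smul, mul_smul, mul_smul]
  have h2 := convexHull_min (s := Set.range w) (t := {z : Fin d → ℝ | ∃ c : Fin m → ℝ,
      (∀ i, 0 ≤ c i) ∧ ∑ i, c i = 1 ∧ ∑ i, c i • w i = z}) (by
    rintro _ ⟨i, rfl⟩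
    refine ⟨Pi.single i 1, fun j => ?_, ?_, ?_⟩
    · by_cases h : j = i
      · subst h; simp
      · simp [Pi.single_eq_of_ne h]
    · simp
    · simp [Pi.single_apply, ite_smul]) h1
  exact h2 hz

/-- The positive side of an affine dependence covers the hull. -/
theorem radon_side {m : ℕ} (w : Fin (m + 1) → (Fin d → ℝ)) (α : Fin (m + 1) → ℝ)
    (h0 : ∑ i, α i = 0) (h1 : ∑ i, α i • w i = 0) (hα : ∃ i, 0 < α i) (z : Fin d → ℝ)
    (hz : z ∈ convexHull ℝ (Set.range w)) :
    ∃ i, 0 < α i ∧ z ∈ convexHull ℝ (Set.range (w ∘ i.succAbove)) := by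
  classical
  obtain ⟨c, hc0, hc1, hcz⟩ := mem_hull_iff w z hz
  obtain ⟨i, hi, hmin⟩ := Finset.exists_min_image (Finset.univ.filter fun i => 0 < α i)
    (fun i => c i / α i) (by
      obtain ⟨i, hi⟩ := hα
      exact ⟨i, by simpa using hi⟩)
  have hi' : 0 < α i := by simpa using hi
  refine ⟨i, hi', ?_⟩
  set t := c i / α i with ht
  have ht0 : 0 ≤ t := div_nonneg (hc0 i) hi'.le
  have hc' : ∀ j, 0 ≤ c j - t * α j := by
    intro j
    by_cases hj : 0 < α j
    · have h2 := hmin j (by simpa using hj)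
      rw [le_div_iff₀ hj] at h2
      linarith
    · have h2 : t * α j ≤ 0 := mul_nonpos_of_nonneg_of_nonpos ht0 (not_lt.1 hj)
      linarith [hc0 j]
  have hci : c i - t * α i = 0 := by
    rw [ht, div_mul_cancel₀ _ hi'.ne', sub_self]
  have hs1 : ∑ j, (c j - t * α j) = 1 := by
    rw [Finset.sum_sub_distrib, ← Finset.mul_sum, h0, hc1]; ring
  have hs2 : ∑ j, (c j - t * α j) • w j = z := by
    have : ∀ j, (c j - t * α j) • w j = c j • w j - t • (α j • w j) := by
      intro j; rw [sub_smul, mul_smul]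
    simp only [this]
    rw [Finset.sum_sub_distrib, ← Finset.smul_sum, h1, hcz, smul_zero, sub_zero]
  rw [Fin.sum_univ_succAbove _ i, hci, zero_add] at hs1
  rw [Fin.sum_univ_succAbove _ i, hci, zero_smul, zero_add] at hs2
  rw [← hs2]
  exact (convex_convexHull ℝ _).sum_mem (fun j _ => hc' _) hs1
    (fun j _ => subset_convexHull ℝ _ ⟨j, rfl⟩)

/-- The hull of `d + 2` points is covered by at most `(d + 2) / 2` of the simplices. -/
theorem radon (w : Fin (d + 2) → (Fin d → ℝ)) :
    ∃ (t : ℕ) (F : Fin t → Fin (d + 1) → Fin (d + 2)), 1 ≤ t ∧ t ≤ (d + 2) / 2 ∧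
      convexHull ℝ (Set.range w) ⊆ ⋃ j, convexHull ℝ (Set.range (w ∘ F j)) := by
  classical
  have hnl : ¬ LinearIndependent ℝ (fun i => hat (w i)) := by
    intro h
    have h1 := h.fintype_card_le_finrank
    rw [finrank_prod, finrank_self] at h1
    simp at h1
  obtain ⟨α, hα1, i0, hi0⟩ := Fintype.not_linearIndependent_iff.1 hnl
  have hs0 : ∑ i, α i = 0 := by
    have := congrArg Prod.snd hα1
    simpa [hat, Prod.snd_sum] using this
  have hs1 : ∑ i, α i • w i = 0 := by
    have := congrArg Prod.fst hα1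
    simpa [hat, Prod.fst_sum] using this
  have key : ∀ α : Fin (d + 2) → ℝ, ∑ i, α i = 0 → ∑ i, α i • w i = 0 → (∃ i, 0 < α i) →
      (Finset.univ.filter fun i => 0 < α i).card ≤ (d + 2) / 2 →
      ∃ (t : ℕ) (F : Fin t → Fin (d + 1) → Fin (d + 2)), 1 ≤ t ∧ t ≤ (d + 2) / 2 ∧
        convexHull ℝ (Set.range w) ⊆ ⋃ j, convexHull ℝ (Set.range (w ∘ F j)) := by
    intro α h0 h1 hα hc
    set P := Finset.univ.filter fun i => 0 < α i with hP
    refine ⟨P.card, fun j => ((P.equivFin.symm j : P) : Fin (d + 2)).succAbove, ?_, hc, ?_⟩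
    · obtain ⟨i, hi⟩ := hα
      exact Finset.card_pos.2 ⟨i, by simpa [hP] using hi⟩
    · intro z hz
      obtain ⟨i, hi, hz'⟩ := radon_side w α h0 h1 hα z hz
      rw [Set.mem_iUnion]
      refine ⟨P.equivFin ⟨i, by simpa [hP] using hi⟩, ?_⟩
      simpa using hz'
  have hpos : ∀ β : Fin (d + 2) → ℝ, ∑ i, β i = 0 → (∃ i, β i ≠ 0) → ∃ i, 0 < β i := by
    intro β hβ ⟨i, hi⟩
    by_contra hcon
    simp only [not_exists, not_lt] at hcon
    exact hi ((Finset.sum_eq_zero_iff_of_nonpos (fun i _ => hcon i)).1 hβ i (Finset.mem_univ _))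
  by_cases hc : (Finset.univ.filter fun i => 0 < α i).card ≤ (d + 2) / 2
  · exact key α hs0 hs1 (hpos α hs0 ⟨i0, hi0⟩) hc
  · have hs0' : ∑ i, (-α) i = 0 := by simp [hs0]
    have hs1' : ∑ i, (-α) i • w i = 0 := by simp [hs1]
    refine key (-α) hs0' hs1' (hpos _ hs0' ⟨i0, by simpa using hi0⟩) ?_
    have h1 : (Finset.univ.filter fun i => 0 < α i).card +
        (Finset.univ.filter fun i => 0 < (-α) i).card ≤ d + 2 := by
      rw [← Finset.card_union_of_disjoint]
      · refine (Finset.card_le_univ _).trans ?_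
        simp
      · rw [Finset.disjoint_filter]
        intro i _ h2 h3
        simp only [Pi.neg_apply] at h3
        linarith
    omega

/-- Indices of the vertices of the hull. -/
theorem vertices (n m : ℕ) (X : Fin n → (Fin d → ℝ)) (hn : 1 ≤ n)
    (hc : ((convexHull ℝ (Set.range X)).extremePoints ℝ).ncard ≤ m) :
    ∃ w : Fin m → Fin n, convexHull ℝ (Set.range (X ∘ w)) = convexHull ℝ (Set.range X) := by
  classical
  set V := (convexHull ℝ (Set.range X)).extremePoints ℝ with hV
  have hVX : V ⊆ Set.range X := extremePoints_convexHull_subset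
  have hfin : V.Finite := (Set.finite_range X).subset hVX
  have hconv : convexHull ℝ V = convexHull ℝ (Set.range X) := hull_ext _ (Set.finite_range X)
  have hne : V.Nonempty := by
    rw [Set.nonempty_iff_ne_empty]
    intro h
    rw [h, convexHull_empty] at hconv
    have : X ⟨0, hn⟩ ∈ convexHull ℝ (Set.range X) := subset_convexHull ℝ _ ⟨_, rfl⟩
    rw [← hconv] at this
    exact this
  have : Fintype V := hfin.fintype
  have : Nonempty V := hne.to_subtype
  have hcard : Fintype.card V ≤ Fintype.card (Fin m) := by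
    rw [Fintype.card_fin, ← Nat.card_eq_fintype_card, Nat.card_coe_set_eq]
    exact hc
  obtain ⟨f⟩ := Function.Embedding.nonempty_of_card_le hcard
  have hg : Function.Surjective (Function.invFun f) := Function.invFun_surjective f.injective
  choose w hw using fun i : Fin m => hVX (Function.invFun f i).2
  refine ⟨w, ?_⟩
  rw [← hconv]
  congr 1
  ext z
  constructor
  · rintro ⟨i, rfl⟩
    rw [Function.comp_apply, hw]
    exact (Function.invFun f i).2
  · intro hz
    obtain ⟨i, hi⟩ := hg ⟨z, hz⟩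
    exact ⟨i, by rw [Function.comp_apply, hw, hi]⟩

end Pool.Agent.Lib.H49SV
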